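import Pool.Agent.Helper84.OV.Zero

/-!
# Project OV: packet PIG (pigeonhole)
-/

set_option autoImplicit false

open Finset

namespace Pool.Agent.Helper96.OV.PIG

open Pool.Agent.Helper84.OV
open scoped Polynomial

/-- the polynomial with the coefficients `d j i` -/
noncomputable def pol (R : ℕ) (d : Fin (R + 1) × Fin (R + 1) → ℤ) : R2 :=
  ∑ j : Fin (R + 1), Polynomial.monomial (j : ℕ) (∑ i : Fin (R + 1), Polynomial.monomial (i : ℕ) (d (j, i)))

lemma pol_coeff (R : ℕ) (d : Fin (R + 1) × Fin (R + 1) → ℤ) (j i : Fin (R + 1)) :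
    ((pol R d).coeff j).coeff i = d (j, i) := by
  unfold pol
  rw [Polynomial.finsetSum_coeff, sum_eq_single j]
  · rw [Polynomial.coeff_monomial, if_pos rfl, Polynomial.finsetSum_coeff, sum_eq_single i]
    · rw [Polynomial.coeff_monomial, if_pos rfl]
    · intro b _ hb
      rw [Polynomial.coeff_monomial, if_neg]
      intro h; exact hb (Fin.ext h)
    · intro h; exact absurd (mem_univ _) h
  · intro b _ hb
    rw [Polynomial.coeff_monomial, if_neg]
    intro h; exact hb (Fin.ext h)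
  · intro h; exact absurd (mem_univ _) h

lemma pol_natDegree (R : ℕ) (d : Fin (R + 1) × Fin (R + 1) → ℤ) : (pol R d).natDegree ≤ R := by
  unfold pol
  refine Polynomial.natDegree_sum_le_of_forall_le _ _ fun j _ => ?_
  exact (Polynomial.natDegree_monomial_le _).trans (by omega)

lemma pol_DX (R : ℕ) (d : Fin (R + 1) × Fin (R + 1) → ℤ) : DX R (pol R d) := by
  intro k
  unfold pol
  rw [Polynomial.finsetSum_coeff]
  refine Polynomial.natDegree_sum_le_of_forall_le _ _ fun j _ => ?_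
  rw [Polynomial.coeff_monomial]
  split_ifs
  · refine Polynomial.natDegree_sum_le_of_forall_le _ _ fun i _ => ?_
    exact (Polynomial.natDegree_monomial_le _).trans (by omega)
  · simp

lemma pol_ev (R : ℕ) (d : Fin (R + 1) × Fin (R + 1) → ℤ) (x y : ℤ) :
    ev x y (pol R d) = ∑ j : Fin (R + 1), ∑ i : Fin (R + 1), d (j, i) * x ^ (i : ℕ) * y ^ (j : ℕ) := by
  unfold pol ev
  rw [map_sum]
  refine sum_congr rfl fun j _ => ?_
  simp only [RingHom.coe_comp, Function.comp_apply, Polynomial.coe_evalRingHom,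
    Polynomial.eval_monomial, Polynomial.eval_mul, Polynomial.eval_finsetSum, Polynomial.eval_pow,
    Polynomial.eval_C]
  rw [sum_mul]

lemma pol_nrm (R h : ℕ) (d : Fin (R + 1) × Fin (R + 1) → ℤ) (hd : ∀ z, (d z).natAbs ≤ h) :
    nrm (pol R d) ≤ (R + 1) ^ 2 * h := by
  unfold pol
  refine (nrm_sum _ _).trans ?_
  have h1 : ∀ j : Fin (R + 1), nrm (Polynomial.monomial (j : ℕ)
      (∑ i : Fin (R + 1), Polynomial.monomial (i : ℕ) (d (j, i)))) ≤ (R + 1) * h := by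
    intro j
    rw [nrm_monomial]
    refine (n1_sum _ _).trans ?_
    refine (sum_le_card_nsmul _ _ h fun i _ => ?_).trans (by simp)
    rw [n1_monomial]
    exact hd _
  refine (sum_le_card_nsmul _ _ ((R + 1) * h) fun j _ => h1 j).trans ?_
  rw [card_univ, Fintype.card_fin, smul_eq_mul]
  exact le_of_eq (by ring)

theorem t : S_PIG := by
  intro R p q hR hp hpq
  have hq : 1 ≤ q := hp.trans hpq
  -- the size of the coefficients
  have hex : ∃ h : ℕ, (R + 1) ^ 2 * q ^ (2 * R) < (h + 1) ^ (R ^ 2 + 2 * R) := by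
    refine ⟨(R + 1) ^ 2 * q ^ (2 * R), ?_⟩
    calc (R + 1) ^ 2 * q ^ (2 * R) < (R + 1) ^ 2 * q ^ (2 * R) + 1 := Nat.lt_succ_self _
      _ = ((R + 1) ^ 2 * q ^ (2 * R) + 1) ^ 1 := (pow_one _).symm
      _ ≤ _ := Nat.pow_le_pow_right (Nat.succ_pos _) (by nlinarith)
  classical
  obtain ⟨h, hh, hmin⟩ : ∃ h : ℕ, (R + 1) ^ 2 * q ^ (2 * R) < (h + 1) ^ (R ^ 2 + 2 * R) ∧
      ∀ m < h, ¬ (R + 1) ^ 2 * q ^ (2 * R) < (m + 1) ^ (R ^ 2 + 2 * R) :=
    ⟨Nat.find hex, Nat.find_spec hex, fun m hm => Nat.find_min hex hm⟩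
  have hqp : 1 ≤ q ^ (2 * R) := Nat.one_le_pow _ _ hq
  have h1 : 1 ≤ h := by
    by_contra h0
    have : h = 0 := by omega
    subst this
    rw [zero_add, one_pow] at hh
    nlinarith
  have h2 : h ^ (R ^ 2 + 2 * R) ≤ (R + 1) ^ 2 * q ^ (2 * R) := by
    have := hmin (h - 1) (by omega)
    rw [Nat.sub_add_cancel h1] at this
    exact not_lt.1 this
  have h3 : h ^ (R + 2) ≤ (R + 1) ^ 2 * q ^ 2 := by
    have h4 : (h ^ (R + 2)) ^ R ≤ ((R + 1) ^ 2 * q ^ 2) ^ R := by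
      calc (h ^ (R + 2)) ^ R = h ^ (R ^ 2 + 2 * R) := by rw [← pow_mul]; congr 1; ring
        _ ≤ (R + 1) ^ 2 * q ^ (2 * R) := h2
        _ ≤ ((R + 1) ^ 2) ^ R * q ^ (2 * R) := by
            refine Nat.mul_le_mul_right _ ?_
            calc (R + 1) ^ 2 = ((R + 1) ^ 2) ^ 1 := (pow_one _).symm
              _ ≤ _ := Nat.pow_le_pow_right (by positivity) hR
        _ = ((R + 1) ^ 2 * q ^ 2) ^ R := by rw [mul_pow, ← pow_mul q]
    exact (Nat.pow_le_pow_iff_left (by omega)).1 h4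
  have h5 : h ^ R ≤ (R + 1) ^ 2 * q ^ 2 :=
    (Nat.pow_le_pow_right h1 (by omega)).trans h3
  -- the pigeonhole principle
  set N : ℕ := (R + 1) ^ 2 * h * q ^ (2 * R) with hN
  let val : (Fin (R + 1) × Fin (R + 1) → Fin (h + 1)) → ℕ := fun c =>
    ∑ j : Fin (R + 1), ∑ i : Fin (R + 1), (c (j, i) : ℕ) * p ^ (i : ℕ) * q ^ (j : ℕ)
  have hval : ∀ c, val c ≤ N := by
    intro c
    have h6 : ∀ j i : Fin (R + 1), (c (j, i) : ℕ) * p ^ (i : ℕ) * q ^ (j : ℕ) ≤ h * q ^ (2 * R) := by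
      intro j i
      have h7 : (c (j, i) : ℕ) ≤ h := by omega
      have h8 : p ^ (i : ℕ) ≤ q ^ R :=
        (Nat.pow_le_pow_left hpq _).trans (Nat.pow_le_pow_right hq (by omega))
      have h9 : q ^ (j : ℕ) ≤ q ^ R := Nat.pow_le_pow_right hq (by omega)
      calc (c (j, i) : ℕ) * p ^ (i : ℕ) * q ^ (j : ℕ) ≤ h * q ^ R * q ^ R :=
            Nat.mul_le_mul (Nat.mul_le_mul h7 h8) h9
        _ = h * q ^ (2 * R) := by rw [mul_assoc, ← pow_add]; congr 2; ring
    calc val c ≤ ∑ j : Fin (R + 1), ∑ i : Fin (R + 1), h * q ^ (2 * R) :=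
          sum_le_sum fun j _ => sum_le_sum fun i _ => h6 j i
      _ = N := by
          simp only [sum_const, card_univ, Fintype.card_fin, smul_eq_mul, hN]
          ring
  have hcard : Fintype.card (Fin (N + 1)) <
      Fintype.card (Fin (R + 1) × Fin (R + 1) → Fin (h + 1)) := by
    rw [Fintype.card_fin, Fintype.card_fun, Fintype.card_fin, Fintype.card_prod, Fintype.card_fin]
    have e : (R + 1) * (R + 1) = (R ^ 2 + 2 * R) + 1 := by ring
    rw [e, pow_succ]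
    calc N + 1 ≤ (R + 1) ^ 2 * h * q ^ (2 * R) + (R + 1) ^ 2 * q ^ (2 * R) := by
          rw [hN]
          have : 1 ≤ (R + 1) ^ 2 * q ^ (2 * R) := Nat.mul_pos (by positivity) hqp
          omega
      _ = ((R + 1) ^ 2 * q ^ (2 * R)) * (h + 1) := by ring
      _ < (h + 1) ^ (R ^ 2 + 2 * R) * (h + 1) := Nat.mul_lt_mul_of_pos_right hh (Nat.succ_pos _)
  obtain ⟨c, c', hne, heq⟩ := Fintype.exists_ne_map_eq_of_card_lt
    (fun c => (⟨val c, Nat.lt_succ_of_le (hval c)⟩ : Fin (N + 1))) hcard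
  have heq' : val c = val c' := congrArg Fin.val heq
  refine ⟨pol R fun z => (c z : ℤ) - (c' z : ℤ), ?_, pol_natDegree _ _, pol_DX _ _, ?_, ?_⟩
  · intro h0
    apply hne
    funext ⟨j, i⟩
    have h6 := pol_coeff R (fun z => (c z : ℤ) - (c' z : ℤ)) j i
    rw [h0, Polynomial.coeff_zero, Polynomial.coeff_zero] at h6
    apply Fin.ext
    omega
  · rw [pol_ev]
    have h6 : ((val c : ℕ) : ℤ) = val c' := by rw [heq']
    simp only [val] at h6
    push_cast at h6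
    have h7 : ∀ j i : Fin (R + 1), ((c (j, i) : ℤ) - (c' (j, i) : ℤ)) * (p : ℤ) ^ (i : ℕ) * (q : ℤ) ^ (j : ℕ) =
        (c (j, i) : ℤ) * (p : ℤ) ^ (i : ℕ) * (q : ℤ) ^ (j : ℕ) -
          (c' (j, i) : ℤ) * (p : ℤ) ^ (i : ℕ) * (q : ℤ) ^ (j : ℕ) := by
      intro j i; ring
    simp only [h7, sum_sub_distrib]
    rw [h6, sub_self]
  · have h6 : nrm (pol R fun z => (c z : ℤ) - (c' z : ℤ)) ≤ (R + 1) ^ 2 * h := by
      refine pol_nrm R h _ fun z => ?_
      have h7 : (c z : ℕ) ≤ h := by omega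
      have h8 : (c' z : ℕ) ≤ h := by omega
      omega
    calc nrm (pol R fun z => (c z : ℤ) - (c' z : ℤ)) ^ R ≤ ((R + 1) ^ 2 * h) ^ R :=
          Nat.pow_le_pow_left h6 _
      _ = (R + 1) ^ (2 * R) * h ^ R := by rw [mul_pow, ← pow_mul]
      _ ≤ (R + 1) ^ (2 * R) * ((R + 1) ^ 2 * q ^ 2) := Nat.mul_le_mul_left _ h5
      _ = (R + 1) ^ (2 * R + 2) * q ^ 2 := by rw [pow_add]; ring

end Pool.Agent.Helper96.OV.PIG
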