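import Pool.Agent.Helper84.OV.Defs

/-!
# Project OV: the resultant with respect to `Y` and its 1-norm
-/

set_option autoImplicit false

open Finset

namespace Pool.Agent.Helper96.OV.Res

open Pool.Agent.Helper84.OV
open scoped Polynomial

lemma n1_one : n1 1 = 1 := by
  rw [← Polynomial.C_1, ← Polynomial.monomial_zero_left, n1_monomial]; rfl

lemma n1_prod {ι : Type*} (s : Finset ι) (f : ι → ℤ[X]) : n1 (∏ i ∈ s, f i) ≤ ∏ i ∈ s, n1 (f i) := by
  classical
  induction s using Finset.induction_on with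
  | empty => simp [n1_one]
  | insert a s ha ih =>
    rw [prod_insert ha, prod_insert ha]
    exact (n1_mul _ _).trans (Nat.mul_le_mul_left _ ih)

/-- The norm of a determinant is at most the product of the norms of the columns. -/
lemma n1_det {k : ℕ} (M : Matrix (Fin k) (Fin k) ℤ[X]) : n1 M.det ≤ ∏ j, ∑ i, n1 (M i j) := by
  rw [Matrix.det_apply]
  refine (n1_sum _ _).trans ?_
  have h1 : ∀ σ : Equiv.Perm (Fin k), n1 (Equiv.Perm.sign σ • ∏ i, M (σ i) i) ≤
      ∏ i, n1 (M (σ i) i) := by
    intro σ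
    rcases Int.units_eq_one_or (Equiv.Perm.sign σ) with h | h
    · rw [h, one_smul]; exact n1_prod _ _
    · rw [h, Units.neg_smul, one_smul, n1_neg]; exact n1_prod _ _
  refine (sum_le_sum fun σ _ => h1 σ).trans ?_
  rw [prod_univ_sum]
  have h2 : ∑ σ : Equiv.Perm (Fin k), ∏ i, n1 (M (σ i) i) =
      ∑ f ∈ (univ : Finset (Equiv.Perm (Fin k))).image (fun (σ : Equiv.Perm (Fin k)) (i : Fin k) => σ i),
        ∏ i, n1 (M (f i) i) := by
    rw [sum_image]
    intro a _ b _ h
    exact Equiv.ext fun i => congrFun h i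
  rw [h2]
  refine sum_le_sum_of_subset fun f _ => ?_
  rw [Fintype.mem_piFinset]
  intro i
  exact mem_univ _

lemma sum_col (g : R2) (n m j : ℕ) (hj : j < m) :
    ∑ i : Fin (m + n), n1 (if (i : ℕ) ∈ Set.Icc j (j + n) then g.coeff ((i : ℕ) - j) else 0) ≤ nrm g := by
  have h1 : ∑ i : Fin (m + n), n1 (if (i : ℕ) ∈ Set.Icc j (j + n) then g.coeff ((i : ℕ) - j) else 0) =
      ∑ i ∈ range (m + n), n1 (if i ∈ Set.Icc j (j + n) then g.coeff (i - j) else 0) :=
    Fin.sum_univ_eq_sum_range (fun i => n1 (if i ∈ Set.Icc j (j + n) then g.coeff (i - j) else 0)) (m + n)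
  rw [h1]
  have h2 : ∑ i ∈ range (m + n), n1 (if i ∈ Set.Icc j (j + n) then g.coeff (i - j) else 0) =
      ∑ i ∈ (range (n + 1)).image (fun k => j + k), n1 (g.coeff (i - j)) := by
    symm
    rw [← sum_filter_add_sum_filter_not (range (m + n)) (fun i => i ∈ Set.Icc j (j + n))]
    have h3 : ∑ i ∈ range (m + n) with ¬ i ∈ Set.Icc j (j + n),
        n1 (if i ∈ Set.Icc j (j + n) then g.coeff (i - j) else 0) = 0 := by
      refine sum_eq_zero fun i hi => ?_
      rw [mem_filter] at hi
      rw [if_neg hi.2, n1_zero]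
    rw [h3, add_zero]
    refine sum_congr ?_ fun i hi => ?_
    · ext i
      simp only [mem_image, mem_range, mem_filter, Set.mem_Icc]
      constructor
      · rintro ⟨k, hk, rfl⟩
        omega
      · rintro ⟨h1, h2, h3⟩
        exact ⟨i - j, by omega, by omega⟩
    · rw [mem_filter] at hi
      rw [if_pos hi.2]
  rw [h2, sum_image (by intro a _ b _ h; simpa using h)]
  simp only [Nat.add_sub_cancel_left]
  rw [nrm_eq g (g.support ∪ range (n + 1)) subset_union_left]
  exact sum_le_sum_of_subset subset_union_right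

/-- The norm of the resultant. -/
theorem n1_resultant (f g : R2) (m n : ℕ) :
    n1 (Polynomial.resultant f g m n) ≤ nrm f ^ n * nrm g ^ m := by
  unfold Polynomial.resultant
  refine (n1_det _).trans ?_
  rw [Fin.prod_univ_add]
  have h1 : ∏ j : Fin m, ∑ i, n1 (Polynomial.sylvester f g m n i (Fin.castAdd n j)) ≤ nrm g ^ m := by
    refine (prod_le_prod' (g := fun _ => nrm g) fun j _ => ?_).trans (by simp)
    have := sum_col g n m j j.2
    unfold Polynomial.sylvester
    simp only [Matrix.of_apply, Fin.addCases_left]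
    exact this
  have h2 : ∏ j : Fin n, ∑ i, n1 (Polynomial.sylvester f g m n i (Fin.natAdd m j)) ≤ nrm f ^ n := by
    refine (prod_le_prod' (g := fun _ => nrm f) fun j _ => ?_).trans (by simp)
    have := sum_col f m n j j.2
    unfold Polynomial.sylvester
    simp only [Matrix.of_apply, Fin.addCases_right]
    rw [← Fin.sum_congr' _ (Nat.add_comm m n)] at this
    exact this
  rw [mul_comm]
  exact Nat.mul_le_mul h2 h1

/-- The resultant with `G` irreducible. -/
theorem res (S G : R2) (hG : Irreducible G) (hG0 : 0 < G.natDegree) (hS : ¬ G ∣ S) :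
    ∃ (a b : R2) (N : ℤ[X]), Polynomial.C N = a * S + b * G ∧ N ≠ 0 ∧
      n1 N ≤ nrm S ^ G.natDegree * nrm G ^ S.natDegree := by
  obtain ⟨p, q, -, -, h⟩ := Polynomial.exists_mul_add_mul_eq_C_resultant S G (m := S.natDegree)
    (n := G.natDegree) le_rfl le_rfl (Or.inr hG0.ne')
  refine ⟨p, q, _, ?_, ?_, n1_resultant S G _ _⟩
  · rw [← h]; ring
  · have hprim : G.IsPrimitive := hG.isPrimitive hG0.ne'
    have hirr : Irreducible (G.map (algebraMap ℤ[X] (FractionRing ℤ[X]))) :=
      (hprim.irreducible_iff_irreducible_map_fraction_map).1 hG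
    have hS0 : S ≠ 0 := by rintro rfl; exact hS (dvd_zero _)
    have hnd : ¬ G.map (algebraMap ℤ[X] (FractionRing ℤ[X])) ∣
        S.map (algebraMap ℤ[X] (FractionRing ℤ[X])) := by
      exact fun hd => hS (hprim.dvd_of_fraction_map_dvd_fraction_map hd)
    have hcop : IsCoprime (S.map (algebraMap ℤ[X] (FractionRing ℤ[X])))
        (G.map (algebraMap ℤ[X] (FractionRing ℤ[X]))) :=
      ((hirr.coprime_iff_not_dvd).2 hnd).symm
    intro h0
    have h1 := Polynomial.resultant_ne_zero _ _ hcop
    have hinj : Function.Injective (algebraMap ℤ[X] (FractionRing ℤ[X])) :=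
      IsFractionRing.injective ℤ[X] (FractionRing ℤ[X])
    rw [Polynomial.natDegree_map_eq_of_injective hinj, Polynomial.natDegree_map_eq_of_injective hinj,
      Polynomial.resultant_map_map, h0, map_zero] at h1
    exact h1 rfl

end Pool.Agent.Helper96.OV.Res
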