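import Pool.Agent.Helper84.OV.Zero
import Pool.Agent.Helper96.OV.ResBase

/-!
# Project OV: packet RES
-/

set_option autoImplicit false

namespace Pool.Agent.Helper96.OV.RES

open Pool.Agent.Helper84.OV

theorem t : S_RES := by
  intro S G n hG hG0 hn hS
  obtain ⟨a, b, N, h1, h2, h3⟩ := Pool.Agent.Helper96.OV.Res.res S G hG hG0 hS
  refine ⟨N, a, b, h2, h1, h3.trans (Nat.mul_le_mul_left _ ?_)⟩
  exact Nat.pow_le_pow_right (nrm_pos hG.ne_zero) hn

end Pool.Agent.Helper96.OV.RES
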