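import Pool.Agent.Helper7.OV.Goals1
import Pool.Agent.Helper84.OV.Defs

/-!
# Project OV: packet LEN
-/

set_option autoImplicit false

open Finset

namespace Pool.Agent.Helper96.OV.LEN

open Pool.Agent.Helper7.OV
open scoped Polynomial

lemma len_eq (F : P2) : len F = Pool.Agent.Helper84.OV.nrm F := rfl

lemma len1_eq (F : ℤ[X]) : len1 F = Pool.Agent.Helper84.OV.n1 F := rfl

lemma n1_Xder (f : ℤ[X]) (a : ℕ) (h : f.natDegree ≤ a) :
    len1 (Polynomial.X * Polynomial.derivative f) ≤ a * len1 f := by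
  rw [len1_eq, len1_eq]
  have h1 := Pool.Agent.Helper84.OV.n1_mul Polynomial.X (Polynomial.derivative f)
  have h2 : Pool.Agent.Helper84.OV.n1 Polynomial.X = 1 := by
    rw [← Polynomial.monomial_one_one_eq_X, Pool.Agent.Helper84.OV.n1_monomial]; rfl
  rw [h2, one_mul] at h1
  exact h1.trans (Pool.Agent.Helper84.OV.n1_deriv f a h)

lemma coeff_D1 (F : P2) (j : ℕ) : (D1 F).coeff j = Polynomial.X * Polynomial.derivative (F.coeff j) := by
  unfold D1
  rw [Polynomial.finsetSum_coeff]
  simp only [Polynomial.coeff_monomial]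
  by_cases hj : j ∈ range (F.natDegree + 1)
  · rw [sum_eq_single j]
    · simp
    · intro b _ hb; rw [if_neg hb]
    · intro h; exact absurd hj h
  · rw [sum_eq_zero]
    · rw [mem_range, not_lt] at hj
      rw [Polynomial.coeff_eq_zero_of_natDegree_lt (by omega), map_zero, mul_zero]
    · intro b hb; rw [if_neg]; rintro rfl; exact hj hb

lemma len_D1 (F : P2) (a b : ℕ) (h : DL a b F) : len (D1 F) ≤ a * len F := by
  have hs : (D1 F).support ⊆ F.support := by
    intro j hj
    rw [Polynomial.mem_support_iff] at hj ⊢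
    intro h0
    apply hj
    rw [coeff_D1, h0, map_zero, mul_zero]
  rw [len_eq, Pool.Agent.Helper84.OV.nrm_eq _ _ hs]
  change _ ≤ a * (∑ j ∈ F.support, len1 (F.coeff j))
  rw [mul_sum]
  refine sum_le_sum fun j _ => ?_
  rw [coeff_D1]
  exact n1_Xder _ a (h.2 j)

lemma len_D2 (F : P2) (a b : ℕ) (h : DL a b F) : len (D2 F) ≤ b * len F := by
  have h1 := Pool.Agent.Helper84.OV.nrm_mul Polynomial.X (Polynomial.derivative F)
  have h2 : Pool.Agent.Helper84.OV.nrm Polynomial.X = 1 := Pool.Agent.Helper84.OV.nrm_YY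
  rw [h2, one_mul] at h1
  exact h1.trans (Pool.Agent.Helper84.OV.nrm_deriv F b h.1)

lemma abs_eval1 (f : ℤ[X]) (a x : ℕ) (h : f.natDegree ≤ a) (hx : 1 ≤ x) :
    |f.eval (x : ℤ)| ≤ len1 f * x ^ a := by
  rw [Polynomial.eval_eq_sum]
  unfold Polynomial.sum
  refine (abs_sum_le_sum_abs _ _).trans ?_
  unfold len1
  push_cast
  rw [sum_mul]
  refine sum_le_sum fun i hi => ?_
  rw [abs_mul, abs_pow, Nat.abs_cast]
  refine mul_le_mul_of_nonneg_left ?_ (abs_nonneg _)
  have hi2 : i ≤ a := (Polynomial.le_natDegree_of_mem_supp i hi).trans h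
  exact_mod_cast Nat.pow_le_pow_right hx hi2

lemma abs_ev (F : P2) (a b x y : ℕ) (h : DL a b F) (hx : 1 ≤ x) (hy : 1 ≤ y) :
    |ev x y F| ≤ len F * x ^ a * y ^ b := by
  have e : ev x y F = ∑ j ∈ F.support, (F.coeff j).eval (x : ℤ) * (y : ℤ) ^ j := by
    unfold ev Polynomial.evalEval
    conv_lhs => rw [Polynomial.eval_eq_sum (p := F)]
    unfold Polynomial.sum
    rw [Polynomial.eval_finsetSum]
    refine sum_congr rfl fun j _ => ?_
    simp
  rw [e]
  refine (abs_sum_le_sum_abs _ _).trans ?_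
  unfold len
  push_cast
  rw [sum_mul, sum_mul]
  refine sum_le_sum fun j hj => ?_
  rw [abs_mul, abs_pow, Nat.abs_cast]
  have h1 := abs_eval1 (F.coeff j) a x (h.2 j) hx
  have hj2 : j ≤ b := (Polynomial.le_natDegree_of_mem_supp j hj).trans h.1
  have h2 : (y : ℤ) ^ j ≤ (y : ℤ) ^ b := by exact_mod_cast Nat.pow_le_pow_right hy hj2
  exact mul_le_mul h1 h2 (by positivity) (by positivity)

lemma co_le (F : P2) (i j : ℕ) : |co F i j| ≤ len F := by
  unfold co
  rcases eq_or_ne ((F.coeff j).coeff i) 0 with h0 | h0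
  · rw [h0, abs_zero]; positivity
  have hj : j ∈ F.support := by
    rw [Polynomial.mem_support_iff]
    intro h; rw [h, Polynomial.coeff_zero] at h0; exact h0 rfl
  have hi : i ∈ (F.coeff j).support := by
    rw [Polynomial.mem_support_iff]; exact h0
  have h1 : len1 (F.coeff j) ≤ len F :=
    single_le_sum (f := fun j => len1 (F.coeff j)) (fun _ _ => Nat.zero_le _) hj
  have h2 : ((F.coeff j).coeff i).natAbs ≤ len1 (F.coeff j) :=
    single_le_sum (f := fun i => ((F.coeff j).coeff i).natAbs) (fun _ _ => Nat.zero_le _) hi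
  rw [Int.abs_eq_natAbs]
  exact_mod_cast h2.trans h1

lemma len_le (F : P2) (a b H : ℕ) (h : DL a b F) (hH : ∀ i j : ℕ, |co F i j| ≤ H) :
    len F ≤ (a + 1) * (b + 1) * H := by
  have hH' : ∀ i j : ℕ, ((F.coeff j).coeff i).natAbs ≤ H := by
    intro i j
    have := hH i j
    unfold co at this
    rw [Int.abs_eq_natAbs] at this
    exact_mod_cast this
  have h1 : ∀ j, len1 (F.coeff j) ≤ (a + 1) * H := by
    intro j
    rw [len1_eq, Pool.Agent.Helper84.OV.n1_eq _ (range (a + 1))]
    · refine (sum_le_card_nsmul _ _ H fun i _ => hH' i j).trans ?_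
      simp
    · intro i hi
      rw [mem_range]
      have := (Polynomial.le_natDegree_of_mem_supp i hi).trans (h.2 j)
      omega
  rw [len_eq, Pool.Agent.Helper84.OV.nrm_eq _ (range (b + 1))]
  · refine (sum_le_card_nsmul _ _ ((a + 1) * H) fun j _ => h1 j).trans ?_
    rw [card_range, smul_eq_mul]
    exact le_of_eq (by ring)
  · intro j hj
    rw [mem_range]
    have := (Polynomial.le_natDegree_of_mem_supp j hj).trans h.1
    omega

theorem t : S_LEN :=
  ⟨Pool.Agent.Helper84.OV.nrm_add, Pool.Agent.Helper84.OV.nrm_mul, Pool.Agent.Helper84.OV.nrm_neg,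
    Pool.Agent.Helper84.OV.nrm_pow, fun _ h => Pool.Agent.Helper84.OV.nrm_pos h,
    fun F a b h => ⟨len_D1 F a b h, len_D2 F a b h⟩, abs_ev, co_le, len_le⟩

end Pool.Agent.Helper96.OV.LEN
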